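import Mathlib

/-!
# MP_9c3df6_al, Q1: compatible ASLs on `J(P)` for disjoint unions of chains
-/

namespace Pool.Agent.Results.MP_9c3df6_al.UniqueCompatibleASL

universe u v w

section Defs

variable (K : Type u) [Field K] {P : Type v} [PartialOrder P] {τ : Type w}

/-- `φ(I) = w_I t` in `K[x_i (i ∈ τ), t]`; the variable `t` is `X none`, and `w I` is the
exponent vector of the monomial `w_I`. -/
noncomputable def phi (w : LowerSet P → τ →₀ ℕ) (I : LowerSet P) : MvPolynomial (Option τ) K :=
  MvPolynomial.rename some (MvPolynomial.monomial (w I) (1 : K)) * MvPolynomial.X none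

/-- The multichains of `J(P)`: multisets of pairwise comparable poset ideals. -/
def Multichain (P : Type v) [PartialOrder P] : Type v :=
  {s : Multiset (LowerSet P) // ∀ I ∈ s, ∀ J ∈ s, I ≤ J ∨ J ≤ I}

/-- The standard monomial of a multichain. -/
noncomputable def std (w : LowerSet P → τ →₀ ℕ) (s : Multichain P) : MvPolynomial (Option τ) K :=
  (s.1.map (phi K w)).prod

/-- The algebra `K[Ω]` generated by the `w_I t`. -/
noncomputable def KOmega (w : LowerSet P → τ →₀ ℕ) : Subalgebra K (MvPolynomial (Option τ) K) :=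
  Algebra.adjoin K (Set.range (phi K w))

/-- `K[Ω]` is an algebra with straightening laws on `J(P)` via `φ(I) = w_I t`. -/
structure IsASL (w : LowerSet P → τ →₀ ℕ) : Prop where
  inj : Function.Injective (phi K w)
  indep : LinearIndependent K (std K w)
  span : Submodule.span K (Set.range (std K w)) = Subalgebra.toSubmodule (KOmega K w)
  straight : ∀ I I' : LowerSet P, ¬ I ≤ I' → ¬ I' ≤ I → ∀ c : Multichain P →₀ K,
    phi K w I * phi K w I' = Finsupp.linearCombination K (std K w) c →
    ∀ s ∈ c.support, ∃ J ∈ s.1, (∀ J' ∈ s.1, J ≤ J') ∧ J ≤ I ∧ J ≤ I'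

/-- `φ(I)φ(I') = φ(J)φ(J')` is a straightening relation: `I, I'` are incomparable and
the right hand side is standard. -/
def IsStraightening (w : LowerSet P → τ →₀ ℕ) (I I' J J' : LowerSet P) : Prop :=
  ¬ I ≤ I' ∧ ¬ I' ≤ I ∧ J ≤ J' ∧ phi K w I * phi K w I' = phi K w J * phi K w J'

/-- A compatible ASL: every straightening relation reads `φ(I)φ(I') = φ(J)φ(J')` with
`J ⊆ I ∩ I'` and `J' ⊇ I ∪ I'`. -/
structure IsCompatibleASL (w : LowerSet P → τ →₀ ℕ) : Prop extends IsASL K w where
  compat : ∀ I I' : LowerSet P, ¬ I ≤ I' → ¬ I' ≤ I →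
    ∃ J J' : LowerSet P, IsStraightening K w I I' J J' ∧ J ≤ I ⊓ I' ∧ I ⊔ I' ≤ J'

open Classical in
/-- The toric ring `K[O(P)]` of the order polytope: `w_I = x(I) = ∏_{p ∈ I} x_p`. -/
noncomputable def orderWeights [Finite P] (I : LowerSet P) : P →₀ ℕ :=
  Finsupp.equivFunOnFinite.symm fun p => if p ∈ I then 1 else 0

end Defs

/-! ### The combinatorial core -/

section Core

variable {ι : Type} {C : ι → Type} [∀ i, LinearOrder (C i)]

theorem fst_eq {p q : Σ i, C i} (h : p ≤ q) : p.1 = q.1 := by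
  cases h; rfl

/-- the part of a poset ideal lying over `A ⊆ ι` -/
def res (A : Set ι) (I : LowerSet (Σ i, C i)) : LowerSet (Σ i, C i) where
  carrier := {p | p ∈ I ∧ p.1 ∈ A}
  lower' := by
    intro p q hqp hp
    refine ⟨I.lower hqp hp.1, ?_⟩
    rw [fst_eq hqp]
    exact hp.2

theorem mem_res {A : Set ι} {I : LowerSet (Σ i, C i)} {p : Σ i, C i} :
    p ∈ res A I ↔ p ∈ I ∧ p.1 ∈ A := Iff.rfl

theorem res_le (A : Set ι) (I : LowerSet (Σ i, C i)) : res A I ≤ I := fun _ hp => hp.1

theorem res_sup_compl (A : Set ι) (I : LowerSet (Σ i, C i)) : res A I ⊔ res Aᶜ I = I := by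
  ext p
  simp only [LowerSet.coe_sup, Set.mem_union, SetLike.mem_coe, mem_res]
  by_cases h : p.1 ∈ A <;> simp [h]

theorem res_bot_of_le {A : Set ι} {I J : LowerSet (Σ i, C i)} (h : res A I ≤ res Aᶜ J) :
    res A I = ⊥ := by
  rw [eq_bot_iff]
  intro p hp
  exact absurd hp.2 (h hp).2

theorem res_bot_of_le' {A : Set ι} {I J : LowerSet (Σ i, C i)} (h : res Aᶜ J ≤ res A I) :
    res Aᶜ J = ⊥ := by
  rw [eq_bot_iff]
  intro p hp
  exact absurd (h hp).2 hp.2

theorem res_inf_compl (A : Set ι) (I J : LowerSet (Σ i, C i)) : res A I ⊓ res Aᶜ J = ⊥ := by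
  rw [eq_bot_iff]
  intro p hp
  exact absurd hp.1.2 hp.2.2

variable {M : Type*} [AddCommMonoid M] [IsCancelAdd M] [Finite ι] [∀ i, Finite (C i)]

/-- the properties of the exponent map used in the proof -/
structure Good (f : LowerSet (Σ i, C i) → M) : Prop where
  inj : Function.Injective f
  chain : ∀ I I' J J', I ≤ I' → J ≤ J' → f I + f I' = f J + f J' → I = J ∧ I' = J'
  compat : ∀ I I', ¬ I ≤ I' → ¬ I' ≤ I → ∃ J J', J ≤ I ⊓ I' ∧ I ⊔ I' ≤ J' ∧ f I + f I' = f J + f J'

theorem step1 {f : LowerSet (Σ i, C i) → M} (hf : Good f) (A : Set ι) :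
    ∀ I, res Aᶜ ⊤ ≤ I → f (res A I) + f (res Aᶜ ⊤) = f ⊥ + f I := by
  haveI : Finite (LowerSet (Σ i, C i)) := Finite.of_injective (fun I => (I : Set (Σ i, C i)))
    SetLike.coe_injective
  intro I
  induction I using WellFoundedGT.induction with
  | ind I ih =>
    intro hI
    have hsup : res A I ⊔ res Aᶜ ⊤ = I := by
      apply le_antisymm (sup_le (res_le A I) hI)
      intro p hp
      by_cases h : p.1 ∈ A
      · exact Or.inl ⟨hp, h⟩
      · exact Or.inr ⟨trivial, h⟩
    by_cases h1 : res A I ≤ res Aᶜ ⊤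
    · have h2 := res_bot_of_le h1
      rw [h2, bot_sup_eq] at hsup
      rw [h2, hsup]
    by_cases h2 : res Aᶜ (⊤ : LowerSet (Σ i, C i)) ≤ res A I
    · have h3 := res_bot_of_le' h2
      rw [h3, sup_bot_eq] at hsup
      rw [h3, hsup, add_comm]
    obtain ⟨J, J', hJ, hJ', e⟩ := hf.compat _ _ h1 h2
    rw [res_inf_compl, le_bot_iff] at hJ
    subst hJ
    rw [hsup] at hJ'
    rcases hJ'.lt_or_eq with hlt | heq
    · exfalso
      have e2 := ih J' hlt (hI.trans hJ')
      rw [← e2] at e
      have e3 := hf.inj (add_right_cancel e)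
      apply hlt.ne
      apply le_antisymm hJ'
      intro p hp
      by_cases h : p.1 ∈ A
      · have : p ∈ res A J' := ⟨hp, h⟩
        rw [← e3] at this
        exact this.1
      · exact hI ⟨trivial, h⟩
    · rw [heq]
      rw [← heq] at e
      rw [← heq]
      exact e

theorem step2 {f : LowerSet (Σ i, C i) → M} (hf : Good f) (A : Set ι) :
    ∀ I, f (res A I) + f (res Aᶜ I) = f ⊥ + f I := by
  haveI : Finite (LowerSet (Σ i, C i)) := Finite.of_injective (fun I => (I : Set (Σ i, C i)))
    SetLike.coe_injective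
  intro I
  induction I using WellFoundedGT.induction with
  | ind I ih =>
    have hsup := res_sup_compl A I
    by_cases h1 : res A I ≤ res Aᶜ I
    · have h2 := res_bot_of_le h1
      rw [h2, bot_sup_eq] at hsup
      rw [h2, hsup]
    by_cases h2 : res Aᶜ I ≤ res A I
    · have h3 := res_bot_of_le' h2
      rw [h3, sup_bot_eq] at hsup
      rw [h3, hsup, add_comm]
    obtain ⟨J, J', hJ, hJ', e⟩ := hf.compat _ _ h1 h2
    rw [res_inf_compl, le_bot_iff] at hJ
    subst hJ
    rw [hsup] at hJ'
    rcases hJ'.lt_or_eq with hlt | heq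
    · exfalso
      have e2 := ih J' hlt
      rw [← e2] at e
      have hres : ∀ X : LowerSet (Σ i, C i), res A (res A X ⊔ res Aᶜ ⊤) = res A X := by
        intro X
        ext p
        simp only [SetLike.mem_coe, mem_res]
        constructor
        · rintro ⟨h | h, hA⟩
          · exact h
          · exact absurd hA h.2
        · intro h
          exact ⟨Or.inl h, h.2⟩
      have s1 := step1 hf A (res A I ⊔ res Aᶜ ⊤) le_sup_right
      have s2 := step1 hf A (res A J' ⊔ res Aᶜ ⊤) le_sup_right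
      rw [hres] at s1 s2
      have hle : ∀ X : LowerSet (Σ i, C i), res Aᶜ X ≤ res A X ⊔ res Aᶜ ⊤ := by
        intro X p hp
        exact Or.inr ⟨trivial, hp.2⟩
      have e3 : f (res Aᶜ I) + f (res A I ⊔ res Aᶜ ⊤) = f (res Aᶜ J') + f (res A J' ⊔ res Aᶜ ⊤) := by
        have e4 : f ⊥ + (f (res Aᶜ I) + f (res A I ⊔ res Aᶜ ⊤))
            = f ⊥ + (f (res Aᶜ J') + f (res A J' ⊔ res Aᶜ ⊤)) := by
          calc f ⊥ + (f (res Aᶜ I) + f (res A I ⊔ res Aᶜ ⊤))
              = f (res Aᶜ I) + (f ⊥ + f (res A I ⊔ res Aᶜ ⊤)) := by abel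
            _ = f (res Aᶜ I) + (f (res A I) + f (res Aᶜ ⊤)) := by rw [s1]
            _ = (f (res A I) + f (res Aᶜ I)) + f (res Aᶜ ⊤) := by abel
            _ = (f (res A J') + f (res Aᶜ J')) + f (res Aᶜ ⊤) := by rw [e]
            _ = f (res Aᶜ J') + (f (res A J') + f (res Aᶜ ⊤)) := by abel
            _ = f (res Aᶜ J') + (f ⊥ + f (res A J' ⊔ res Aᶜ ⊤)) := by rw [s2]
            _ = _ := by abel
        exact add_left_cancel e4
      obtain ⟨g1, g2⟩ := hf.chain _ _ _ _ (hle I) (hle J') e3
      have g3 : res A I = res A J' := by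
        rw [← hres I, g2, hres J']
      apply hlt.ne
      rw [← res_sup_compl A I, ← res_sup_compl A J', g1, g3]
    · rw [← heq] at e
      exact e

theorem step3 {f : LowerSet (Σ i, C i) → M} (hf : Good f) (I : LowerSet (Σ i, C i))
    (s : Finset ι) :
    f (res (s : Set ι) I) + s.card • f ⊥ = f ⊥ + ∑ i ∈ s, f (res {i} I) := by
  classical
  induction s using Finset.induction_on with
  | empty =>
    have : res ((∅ : Finset ι) : Set ι) I = ⊥ := by
      rw [eq_bot_iff]
      intro p hp
      have := hp.2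
      simp at this
    rw [this]
    simp
  | insert i s hi ih =>
    have e := step2 hf {i} (res ((insert i s : Finset ι) : Set ι) I)
    have e1 : res {i} (res ((insert i s : Finset ι) : Set ι) I) = res {i} I := by
      ext p
      simp only [SetLike.mem_coe, mem_res, Set.mem_singleton_iff, Finset.coe_insert,
        Set.mem_insert_iff]
      tauto
    have e2 : res {i}ᶜ (res ((insert i s : Finset ι) : Set ι) I) = res (s : Set ι) I := by
      ext p
      simp only [SetLike.mem_coe, mem_res, Set.mem_singleton_iff, Finset.coe_insert,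
        Set.mem_insert_iff, Set.mem_compl_iff]
      constructor
      · rintro ⟨⟨h1, h2 | h2⟩, h3⟩
        · exact absurd h2 h3
        · exact ⟨h1, h2⟩
      · rintro ⟨h1, h2⟩
        refine ⟨⟨h1, Or.inr h2⟩, ?_⟩
        intro h3
        rw [h3] at h2
        exact hi h2
    rw [e1, e2] at e
    rw [Finset.sum_insert hi, Finset.card_insert_of_notMem hi, add_smul, one_smul]
    calc f (res ((insert i s : Finset ι) : Set ι) I) + (s.card • f ⊥ + f ⊥)
        = (f ⊥ + f (res ((insert i s : Finset ι) : Set ι) I)) + s.card • f ⊥ := by abel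
      _ = (f (res {i} I) + f (res (s : Set ι) I)) + s.card • f ⊥ := by rw [e]
      _ = f (res {i} I) + (f (res (s : Set ι) I) + s.card • f ⊥) := by abel
      _ = f (res {i} I) + (f ⊥ + ∑ i ∈ s, f (res {i} I)) := by rw [ih]
      _ = _ := by abel

theorem res_total (i : ι) (I I' : LowerSet (Σ i, C i)) : res {i} I ≤ res {i} I' ∨
    res {i} I' ≤ res {i} I := by
  by_contra hcon
  push Not at hcon
  obtain ⟨h1, h2⟩ := hcon
  obtain ⟨⟨j, c⟩, hp, hp'⟩ := Set.not_subset.1 h1
  obtain ⟨⟨k, d⟩, hq, hq'⟩ := Set.not_subset.1 h2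
  have hj : j = i := hp.2
  have hk : k = i := hq.2
  subst hj
  subst hk
  rcases le_total c d with h | h
  · exact hp' ((res _ I').lower (Sigma.mk_le_mk_iff.2 h) hq)
  · exact hq' ((res _ I).lower (Sigma.mk_le_mk_iff.2 h) hp)

theorem core {f : LowerSet (Σ i, C i) → M} (hf : Good f) (I I' : LowerSet (Σ i, C i)) :
    f I + f I' = f (I ⊓ I') + f (I ⊔ I') := by
  classical
  haveI := Fintype.ofFinite ι
  have huniv : ∀ X : LowerSet (Σ i, C i), res ((Finset.univ : Finset ι) : Set ι) X = X := by
    intro X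
    ext p
    simp [mem_res]
  have h3 : ∀ X, f X + (Finset.univ : Finset ι).card • f ⊥ = f ⊥ + ∑ i, f (res {i} X) := by
    intro X
    have := step3 hf X Finset.univ
    rwa [huniv] at this
  have hinf : ∀ i, res {i} (I ⊓ I') = res {i} I ⊓ res {i} I' := by
    intro i
    ext p
    simp only [LowerSet.coe_inf, Set.mem_inter_iff, SetLike.mem_coe, mem_res, LowerSet.mem_inf_iff]
    tauto
  have hsup : ∀ i, res {i} (I ⊔ I') = res {i} I ⊔ res {i} I' := by
    intro i
    ext p
    simp only [LowerSet.coe_sup, Set.mem_union, SetLike.mem_coe, mem_res, LowerSet.mem_sup_iff]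
    tauto
  have hsum : ∑ i, f (res {i} I) + ∑ i, f (res {i} I')
      = ∑ i, f (res {i} (I ⊓ I')) + ∑ i, f (res {i} (I ⊔ I')) := by
    rw [← Finset.sum_add_distrib, ← Finset.sum_add_distrib]
    apply Finset.sum_congr rfl
    intro i _
    rw [hinf, hsup]
    rcases res_total i I I' with h | h
    · rw [inf_eq_left.2 h, sup_eq_right.2 h]
    · rw [inf_eq_right.2 h, sup_eq_left.2 h, add_comm]
  have e : ((Finset.univ : Finset ι).card • f ⊥ + (Finset.univ : Finset ι).card • f ⊥)
      + (f I + f I') = ((Finset.univ : Finset ι).card • f ⊥ + (Finset.univ : Finset ι).card • f ⊥)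
      + (f (I ⊓ I') + f (I ⊔ I')) := by
    calc _ = (f I + (Finset.univ : Finset ι).card • f ⊥)
          + (f I' + (Finset.univ : Finset ι).card • f ⊥) := by abel
      _ = (f ⊥ + ∑ i, f (res {i} I)) + (f ⊥ + ∑ i, f (res {i} I')) := by rw [h3, h3]
      _ = (f ⊥ + f ⊥) + (∑ i, f (res {i} I) + ∑ i, f (res {i} I')) := by abel
      _ = (f ⊥ + f ⊥) + (∑ i, f (res {i} (I ⊓ I')) + ∑ i, f (res {i} (I ⊔ I'))) := by rw [hsum]
      _ = (f ⊥ + ∑ i, f (res {i} (I ⊓ I'))) + (f ⊥ + ∑ i, f (res {i} (I ⊔ I'))) := by abel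
      _ = (f (I ⊓ I') + (Finset.univ : Finset ι).card • f ⊥)
          + (f (I ⊔ I') + (Finset.univ : Finset ι).card • f ⊥) := by rw [h3, h3]
      _ = _ := by abel
  exact add_left_cancel e

end Core

/-! ### Passing to exponents -/

section Expo

variable {K : Type u} [Field K] {P : Type v} [PartialOrder P] {τ : Type w}

/-- the exponent vector of `φ(I)` -/
noncomputable def expo (w : LowerSet P → τ →₀ ℕ) (I : LowerSet P) : Option τ →₀ ℕ :=
  (w I).mapDomain some + Finsupp.single none 1

theorem phi_eq (w : LowerSet P → τ →₀ ℕ) (I : LowerSet P) :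
    phi K w I = MvPolynomial.monomial (expo w I) 1 := by
  rw [phi, MvPolynomial.rename_monomial, MvPolynomial.X, MvPolynomial.monomial_mul, one_mul, expo]

theorem phi_mul (w : LowerSet P → τ →₀ ℕ) (I I' : LowerSet P) :
    phi K w I * phi K w I' = MvPolynomial.monomial (expo w I + expo w I') 1 := by
  rw [phi_eq, phi_eq, MvPolynomial.monomial_mul, one_mul]

theorem phi_mul_eq_iff (w : LowerSet P → τ →₀ ℕ) (I I' J J' : LowerSet P) :
    phi K w I * phi K w I' = phi K w J * phi K w J' ↔ expo w I + expo w I' = expo w J + expo w J' := by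
  rw [phi_mul, phi_mul]
  constructor
  · intro h
    exact MvPolynomial.monomial_left_injective one_ne_zero h
  · intro h
    rw [h]

theorem good_of_compatible {ι : Type} {C : ι → Type} [∀ i, LinearOrder (C i)]
    {w : LowerSet (Σ i, C i) → τ →₀ ℕ} (h : IsCompatibleASL K w) : Good (expo w) where
  inj := by
    intro I J hIJ
    apply h.inj
    rw [phi_eq, phi_eq, hIJ]
  chain := by
    intro I I' J J' hI hJ e
    let s : Multichain (Σ i, C i) := ⟨{I, I'}, by
      intro X hX Y hY
      simp only [Multiset.insert_eq_cons, Multiset.mem_cons, Multiset.mem_singleton] at hX hY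
      rcases hX with rfl | rfl <;> rcases hY with rfl | rfl <;> simp [hI]⟩
    let s' : Multichain (Σ i, C i) := ⟨{J, J'}, by
      intro X hX Y hY
      simp only [Multiset.insert_eq_cons, Multiset.mem_cons, Multiset.mem_singleton] at hX hY
      rcases hX with rfl | rfl <;> rcases hY with rfl | rfl <;> simp [hJ]⟩
    have h1 : std K w s = std K w s' := by
      have e1 : std K w s = phi K w I * phi K w I' := by simp [std, s]
      have e2 : std K w s' = phi K w J * phi K w J' := by simp [std, s']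
      rw [e1, e2, phi_mul_eq_iff, e]
    have h2 : s = s' := h.indep.injective h1
    have h3 : ({I, I'} : Multiset (LowerSet (Σ i, C i))) = {J, J'} := congrArg Subtype.val h2
    have h4 : I ∈ ({J, J'} : Multiset (LowerSet (Σ i, C i))) := by rw [← h3]; simp
    simp only [Multiset.insert_eq_cons, Multiset.mem_cons, Multiset.mem_singleton] at h4
    rcases h4 with h4 | h4
    · subst h4
      rw [Multiset.insert_eq_cons, Multiset.insert_eq_cons, Multiset.cons_inj_right,
        Multiset.singleton_inj] at h3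
      exact ⟨rfl, h3⟩
    · subst h4
      rw [Multiset.pair_comm J, Multiset.insert_eq_cons, Multiset.insert_eq_cons,
        Multiset.cons_inj_right, Multiset.singleton_inj] at h3
      subst h3
      exact ⟨le_antisymm hI hJ, le_antisymm hJ hI⟩
  compat := by
    intro I I' h1 h2
    obtain ⟨J, J', ⟨-, -, -, h3⟩, h4, h5⟩ := h.compat I I' h1 h2
    exact ⟨J, J', h4, h5, (phi_mul_eq_iff w _ _ _ _).1 h3⟩

theorem order_iff [Finite P] (I I' J J' : LowerSet P) (hJ : J ≤ J') :
    phi K orderWeights I * phi K orderWeights I' = phi K orderWeights J * phi K orderWeights J' ↔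
      J = I ⊓ I' ∧ J' = I ⊔ I' := by
  classical
  rw [phi_mul_eq_iff]
  have hval : ∀ (X Y : LowerSet P) (p : P), (expo orderWeights X + expo orderWeights Y) (some p)
      = (if p ∈ X then 1 else 0) + (if p ∈ Y then 1 else 0) := by
    intro X Y p
    simp only [expo, Finsupp.add_apply, Finsupp.mapDomain_apply (Option.some_injective P),
      orderWeights, Finsupp.coe_equivFunOnFinite_symm]
    simp
  constructor
  · intro h
    have h1 : ∀ p, (if p ∈ I then 1 else 0) + (if p ∈ I' then 1 else 0)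
        = (if p ∈ J then 1 else 0) + (if p ∈ J' then 1 else (0 : ℕ)) := by
      intro p
      rw [← hval, ← hval, h]
    constructor
    · ext p
      have h2 := h1 p
      have h3 : p ∈ J → p ∈ J' := fun hp => hJ hp
      simp only [SetLike.mem_coe, LowerSet.mem_inf_iff]
      by_cases a : p ∈ I <;> by_cases b : p ∈ I' <;> by_cases c : p ∈ J <;>
        by_cases d : p ∈ J' <;> simp_all
    · ext p
      have h2 := h1 p
      have h3 : p ∈ J → p ∈ J' := fun hp => hJ hp
      simp only [SetLike.mem_coe, LowerSet.mem_sup_iff]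
      by_cases a : p ∈ I <;> by_cases b : p ∈ I' <;> by_cases c : p ∈ J <;>
        by_cases d : p ∈ J' <;> simp_all
  · rintro ⟨rfl, rfl⟩
    ext q
    cases q with
    | none =>
      simp [expo, Finsupp.mapDomain_notin_range]
    | some p =>
      rw [hval, hval]
      simp only [LowerSet.mem_inf_iff, LowerSet.mem_sup_iff]
      by_cases a : p ∈ I <;> by_cases b : p ∈ I' <;> simp [a, b]

end Expo

/-- **Answer to Q1 (proved).** Let `P` be a finite disjoint union of chains, `P = Σ i, C i`.
Then every compatible ASL `K[Ω]` on `J(P)` has the same straightening relations as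
`K[O(P)]`; more precisely, all its straightening relations are
`φ(I)φ(I') = φ(I ∩ I')φ(I ∪ I')`. -/
theorem result (K : Type u) [Field K] {ι : Type} [Finite ι] {C : ι → Type}
    [∀ i, LinearOrder (C i)] [∀ i, Finite (C i)] {τ : Type w}
    (w : LowerSet (Σ i, C i) → τ →₀ ℕ) (h : IsCompatibleASL K w) :
    (∀ I I' J J' : LowerSet (Σ i, C i),
      IsStraightening K w I I' J J' ↔ IsStraightening K orderWeights I I' J J') ∧
    (∀ I I' J J' : LowerSet (Σ i, C i), IsStraightening K w I I' J J' ↔
      ¬ I ≤ I' ∧ ¬ I' ≤ I ∧ J = I ⊓ I' ∧ J' = I ⊔ I') := by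
  have hg := good_of_compatible h
  have h1 : ∀ I I' J J' : LowerSet (Σ i, C i), IsStraightening K w I I' J J' ↔
      ¬ I ≤ I' ∧ ¬ I' ≤ I ∧ J = I ⊓ I' ∧ J' = I ⊔ I' := by
    intro I I' J J'
    constructor
    · rintro ⟨a, b, c, d⟩
      rw [phi_mul_eq_iff, core hg I I'] at d
      obtain ⟨e1, e2⟩ := hg.chain _ _ _ _ (inf_le_left.trans le_sup_left) c d
      exact ⟨a, b, e1.symm, e2.symm⟩
    · rintro ⟨a, b, rfl, rfl⟩
      exact ⟨a, b, inf_le_left.trans le_sup_left, (phi_mul_eq_iff w _ _ _ _).2 (core hg I I')⟩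
  refine ⟨?_, h1⟩
  intro I I' J J'
  rw [h1]
  constructor
  · rintro ⟨a, b, rfl, rfl⟩
    exact ⟨a, b, inf_le_left.trans le_sup_left,
      (order_iff _ _ _ _ (inf_le_left.trans le_sup_left)).2 ⟨rfl, rfl⟩⟩
  · rintro ⟨a, b, c, d⟩
    obtain ⟨e1, e2⟩ := (order_iff _ _ _ _ c).1 d
    exact ⟨a, b, e1, e2⟩

end Pool.Agent.Results.MP_9c3df6_al.UniqueCompatibleASL
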